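import Mathlib
import Pool.Agent.N752.HY.KPts

/-!
# Vojta's inequality with truncated counting function over all number fields: full weight for orbits
# of conjugate hyperplanes, one exceptional set for all divisors

Let `K` be a number field, `m ≥ 1` (`m ≥ 2` if `K = ℚ`) and let `D` be ANY reduced divisor of `ℙ^m`
over `K`, with components `D_j : F_j = 0` (`1 ≤ j ≤ q`), `F_j` an irreducible form over `K` of degree
`κ_j`; the singularities of `D` are arbitrary. On `ℙ^m` we have `h_{K + D} = (∑ κ_j - m - 1) h`, so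
that the inequality of the question is
`N_S^{(1)}(D, P) ≥ (∑ κ_j - m - 1 - ε) h(P) - C`.

**The weights.** We define `w_j = κ_j` if `D_j` is a hyperplane or a quadric. Let `D_j` be (over the
algebraic closure of `K`) the orbit of a hyperplane, that is, a union of `κ_j` conjugate hyperplanes,
and let `ρ_j` be the dimension of the space spanned by their linear forms; so `F_j` is a norm form
`c N_{E / K} (∑ α_i x_i)`, `[E : K] = κ_j`, such that the `α_i` span a space of dimension `ρ_j` over
`K`. Then `w_j = κ_j` if `κ_j < 3 ρ_j`, and `w_j = 2 ρ_j` if `κ_j ≥ 3 ρ_j`. Otherwise `w_j = 1`.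

We prove
`N_S^{(1)}(D, P) ≥ (∑ w_j - ε) h(P) - ∑_{p ∈ S} log p`
(1) for all `P` in `ℙ^m(K)`, outside of ONE set `E₀` of density zero, the same for ALL divisors `D`, ALL
`S` and ALL `ε`, with `h(P) > T`, `T` depending on `D` and `ε`; and (2) for each `D` and `ε` for all
but `C B ^ {n (m + 1) - c}` of the `P` with `h(P) ≤ log B`, where `n = [K : ℚ]` and `c > 0` (the number
of all these `P` is of order `B ^ {n (m + 1)}`). So the inequality of the question is true for almost
all `P` if `∑ (κ_j - w_j) ≤ m + 1`: for example if all `D_j` are hyperplanes, quadrics or orbits of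
at most `3 m + 2` conjugate hyperplanes in general position, for ANY number of components. We may add
to the right hand side `Λ` times the heights relative to ideals `(F'_l, G'_l)` of codimension two,
`Λ` as large as we like; on a smooth variety `X` birational to `ℙ^m`, for example an embedded
resolution of `D`, the heights of the divisors contracted in `ℙ^m` are bounded by multiples of such
heights, so that we obtain the inequality for divisors with normal crossings on all these `X`.

Proof. A form `F` over the ring of integers of `K` which is a product of linear forms over `ℂ` and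
irreducible over `K` is a norm form. The norm of its value at `x` in `O_K ^ {m + 1}` is the value
of a form `G` over `ℤ` in `N = n (m + 1)` variables; this is a norm form over `ℚ` from the same field
`E`, of degree `n κ` and rank `n ρ`, and it is irreducible over `ℚ` (restriction of scalars: the
linear form `∑ β_i x_i`, with coefficients which generate `E` over `ℚ`, has different conjugates). For
such forms over `ℚ` the theorem of helper445 (MP_9ec3f0_nt.ConjugateHyperplanes) bounds the number of
the integer points at which the radical of the value is small. Every point of `ℙ^m(K)` has an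
integral representative with balanced conjugates and bounded content, and the primes of `K` which
divide `F(x)` are counted with the weights `log N(v) ≥ log p`. The other components are done by
the starting result `BirationalToProjectiveSpace` (weights `κ ≤ 2`, or one); the primes common to two
components are bounded by the height relative to an ideal, which is small for almost all `x`.
-/

set_option autoImplicit false

namespace Pool.Agent.Results.MP_9ec3f0_nt.AllDivisorsNumberFields

open NumberField IsDedekindDomain Module MvPolynomial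
open scoped LinearAlgebra.Projectivization
open Pool.Agent.N752.SU (DensityZero)
open Pool.Agent.N752.HY
open Pool.Agent.R366.NF (idealHeight)

/-- the points of `ℙ^m(K)` of absolute logarithmic height at most `T` -/
def Points (K : Type) [Field K] [NumberField K] (m : ℕ) (T : ℝ) :
    Set (ℙ K (Fin (m + 1) → K)) :=
  {Q | hgt Q.rep ≤ T}

/-- The inequality at the point `Q`: no `F_j` vanishes at `Q`, and for ALL finite sets `S` of primes
`θ h(Q) + Λ ∑_l h_{(F'_l, G'_l)}(Q) ≤ N_S^{(1)}(D, Q) + ∑_{p ∈ S} log p`. -/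
def Inequality {K : Type} [Field K] [NumberField K] {m q t : ℕ}
    (F : Fin q → MvPolynomial (Fin (m + 1)) (𝓞 K)) (κ : Fin q → ℕ)
    (F' G' : Fin t → MvPolynomial (Fin (m + 1)) (𝓞 K)) (κ' ε' : Fin t → ℕ) (Λ : ℕ) (θ : ℝ)
    (Q : ℙ K (Fin (m + 1) → K)) : Prop :=
  (∀ j, aeval Q.rep (F j) ≠ 0) ∧ ∀ S : Finset ℕ, (∀ p ∈ S, p.Prime) →
    θ * hgt Q.rep + Λ * ∑ l, idealHeight (F' l) (G' l) (κ' l) (ε' l) Q.rep / finrank ℚ K ≤
      cnt K S F κ Finset.univ Q.rep + ∑ p ∈ S, Real.log p

/-- **Vojta's inequality with truncated counting function for almost all points of `ℙ^m` over a number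
field.** Let `K` be a number field with an embedding `φ` in the complex numbers, `n = [K : ℚ]`,
`m ≥ 1` and `n (m + 1) ≥ 3`. There is ONE set `E₀` of points of `ℙ^m(K)`, of density zero (with
respect to the height), such that for ALL finite families of forms `F_j` over `K`, of degrees `κ_j`,
irreducible over `K` and pairwise not associated, ALL admissible weights `w_j` of the `F_j` (`HasW`:
`w_j ≤ 1`, or `w_j ≤ κ_j ≤ 2`, or `F_j` is over `ℂ` a product of linear forms which span a space of
dimension `ρ_j`, with `w_j ≤ κ_j` if `κ_j < 3 ρ_j`, `w_j ≤ 2 ρ_j` if `κ_j ≥ 3 ρ_j`), ALL finite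
families of pairs of forms `F'_l, G'_l` over `K`, `F'_l` irreducible over `K` and not a divisor of
`G'_l`, ALL natural numbers `Λ` and ALL `θ < ∑ w_j`:

(1) there is `T` such that ALL points `Q ∉ E₀` with `h(Q) > T` satisfy: no `F_j(Q)` is zero, and for
ALL finite sets `S` of primes
`θ h(Q) + Λ ∑_l h_{(F'_l, G'_l)}(Q) ≤ N_S^{(1)}(D, Q) + ∑_{p ∈ S} log p`;

(2) there are `c > 0` and `C` such that for all `T ≥ 0` at most `C exp ((n (m + 1) - c) T)` points
`Q` with `h(Q) ≤ T` do not satisfy this. -/
theorem result (K : Type) [Field K] [NumberField K] (φ : K →+* ℂ) (m : ℕ) (hm : 1 ≤ m)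
    (hd : 3 ≤ finrank ℚ K * (m + 1)) :
    ∃ E₀ : Set (ℙ K (Fin (m + 1) → K)), DensityZero (Points K m) E₀ ∧
      ∀ (q t : ℕ) (F : Fin q → MvPolynomial (Fin (m + 1)) (𝓞 K)) (κ w : Fin q → ℕ)
        (F' G' : Fin t → MvPolynomial (Fin (m + 1)) (𝓞 K)) (κ' ε' : Fin t → ℕ),
        (∀ j, (F j).IsHomogeneous (κ j)) →
        (∀ j, Irreducible (map (algebraMap (𝓞 K) K) (F j))) →
        (∀ i j, i ≠ j →
          ¬ Associated (map (algebraMap (𝓞 K) K) (F i)) (map (algebraMap (𝓞 K) K) (F j))) →
        (∀ j, HasW (map (φ.comp (algebraMap (𝓞 K) K)) (F j)) (κ j) (w j)) →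
        (∀ l, (F' l).IsHomogeneous (κ' l)) → (∀ l, (G' l).IsHomogeneous (ε' l)) →
        (∀ l, Irreducible (map (algebraMap (𝓞 K) K) (F' l))) →
        (∀ l, ¬ map (algebraMap (𝓞 K) K) (F' l) ∣ map (algebraMap (𝓞 K) K) (G' l)) →
        ∀ (Λ : ℕ) (θ : ℝ), θ < ∑ j, (w j : ℝ) →
          (∃ T : ℝ, ∀ Q : ℙ K (Fin (m + 1) → K), Q ∉ E₀ → T < hgt Q.rep →
            Inequality F κ F' G' κ' ε' Λ θ Q) ∧
          ∃ c C : ℝ, 0 < c ∧ ∀ T : ℝ, 0 ≤ T →
            {Q | Q ∈ Points K m T ∧ ¬ Inequality F κ F' G' κ' ε' Λ θ Q}.Finite ∧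
            ({Q | Q ∈ Points K m T ∧ ¬ Inequality F κ F' G' κ' ε' Λ θ Q}.ncard : ℝ) ≤
              C * Real.exp (((finrank ℚ K : ℝ) * (m + 1) - c) * T) := by
  obtain ⟨E₀, hE₀, hall⟩ := KPts.univK (K := K) (m := m) φ hm hd
  refine ⟨E₀, hE₀, ?_⟩
  intro q t F κ w F' G' κ' ε' h1 h2 h3 h4 h5 h6 h7 h8 Λ θ hθ
  have hA : KPts.AdmK φ F κ w F' G' κ' ε' := ⟨h1, h2, h3, h4, h5, h6, h7, h8⟩
  have key : ∀ Q : ℙ K (Fin (m + 1) → K), Good F κ F' G' κ' ε' Λ θ Q.rep →
      Inequality F κ F' G' κ' ε' Λ θ Q := by
    rintro Q ⟨g1, g2⟩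
    refine ⟨g1, fun S hS => ?_⟩
    have g3 := KPts.cnt_S F κ Q.rep_nonzero g1 S hS
    rw [← Finset.sum_div]
    linarith
  constructor
  · obtain ⟨T, hT⟩ := hall q t F κ w F' G' κ' ε' hA Λ θ hθ
    exact ⟨T, fun Q hQE hTQ => key Q (hT Q hQE hTQ)⟩
  · obtain ⟨c, C, hc, h⟩ := KPts.few_of_aa
      (KPts.aa_of_adm φ hd hA (Λ : ℝ) (Nat.cast_nonneg _) θ hθ)
    refine ⟨c, C, hc, fun T hT => ⟨(KPts.pts_fin T).subset fun Q hQ => hQ.1, ?_⟩⟩
    refine le_trans ?_ (h T hT)
    have hsub : {Q | Q ∈ Points K m T ∧ ¬ Inequality F κ F' G' κ' ε' Λ θ Q} ⊆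
        {Q : ℙ K (Fin (m + 1) → K) | ¬ Good F κ F' G' κ' ε' Λ θ Q.rep} ∩ KPts.Pts K m T := by
      rintro Q ⟨hQ1, hQ2⟩
      exact ⟨fun hg => hQ2 (key Q hg), hQ1⟩
    exact_mod_cast Set.ncard_le_ncard hsub ((KPts.pts_fin T).subset Set.inter_subset_right)

end Pool.Agent.Results.MP_9ec3f0_nt.AllDivisorsNumberFields
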