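import Pool.Agent.N445.DF.A17

/-!
# Vojta's conjecture with truncated counting function for almost all rational points of `ℙⁿ`, and of
# the varieties birational to `ℙⁿ`: orbits of conjugate hyperplanes, and components of all degrees

Let `D` be a reduced divisor of `ℙⁿ` over `ℚ`, `n ≥ 2` (all singularities and intersections are
allowed) with components `F_j = 0` irreducible over `ℚ` of degree `k_j`. We show that

  `N¹_S(D, P) ≥ θ h(P) + Λ ∑ h_{(F'_l, G'_l)}(P)`                                   (*)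

for almost all rational points `P`, for each `θ < ∑ w_j`, where `w_j` is the weight of the component
`F_j = 0`, `h_{(F', G')}` is the height relative to the ideal `(F', G')` of codimension two, and `Λ`
is as large as we like. Almost all points has two meanings, and both are shown:

* all but `O(B ^ (n + 1 - c))` of the points of height at most `log B`, with `c > 0`;
* all points outside a set `Z` of density zero, up to a bounded term; the set `Z` depends only on `n`:
  it is the same for all divisors `D`, all `S`, `θ`, `Λ` and all ideals.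

The weight of a component of degree `k` is `weight a k`, which is `k` if `k < 3 a`, and otherwise
`2 a + (k mod a) / (⌊k / a⌋ - 1)`. Here

* `a = 1 + 1 / n` for every component;
* `a = m` for a component which is geometrically a union of `k` conjugate hyperplanes whose
  intersection has codimension `m`: `F = c N_{E/ℚ}(L)`, `L` a linear form over a number field `E`,
  whose coefficients span a space of dimension `m` over `ℚ`.

So the weight is the natural one, `k`, for all components of degree at most `3` (`4` in the plane),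
and for all orbits of `k < 3 m` conjugate hyperplanes of rank `m`. As
`h_{K + D} = (∑ k_j - n - 1) h` on `ℙⁿ`, Vojta's inequality `N¹_S(D, P) ≥ h_{K + D}(P) - ε h(P) - C`
follows for almost all rational points if `∑ (k_j - w_j) ≤ n + 1`: for all sums of components of
degree at most `3` and of orbits of `k_j < 3 m_j` conjugate hyperplanes, for all irreducible `D`
which are orbits of at most `3 (n + 1)` conjugate hyperplanes in general position, and for all
irreducible `D` of degree at most `n + 3`. On a smooth variety `X` birational to `ℙⁿ` over `ℚ`, the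
heights of the divisors contracted in `ℙⁿ` are bounded by multiples of heights relative to ideals of
codimension two, and (*), with the term `Λ ∑ h_{(F'_l, G'_l)}(P)`, is the inequality to be used for
almost all rational points of `X`.

The proof for conjugate hyperplanes: if the radical of `F(x)` is small, `F = c N(L)`, then, almost
always, `F(x)` is divisible by `q ^ 2` with `B ^ δ < q < B ^ (m - δ)`, or `F(x) = σ s y ^ e` with
`e ≥ 2`, `σ` very small and `s ≤ B ^ (m - δ)`. The points with `q ∣ F(x)` are in classes of lattices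
`L(x) ∈ I` for ideals `I` of norm divisible by `q`. Few of the lattices have short vectors; in these
the points are on lines in the direction `u` of the shortest vector, and on each line the
determinant method is used for the curve `F(x) = σ s y ^ e`. The lines on which it is degenerate are
in hyperplanes, as the discriminant on the line `x + t u` is the product of the forms
`L^σ(x) L^τ(u) - L^τ(x) L^σ(u)`.
-/

set_option autoImplicit false

namespace Pool.Agent.Results.MP_9ec3f0_nt.ConjugateHyperplanes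

open MvPolynomial

variable {n r t : ℕ}

/-- `F = 0` is an orbit of conjugate hyperplanes of rank `m`: `F(x) = c N_{E/ℚ}(∑ α_i x_i)` for a
number field `E`, a rational number `c` and elements `α_i` of `E` which span a space of dimension
`m` over `ℚ` -/
def IsNormForm (F : MvPolynomial (Fin (n + 1)) ℤ) (m : ℕ) : Prop :=
  ∃ (E : Type) (_ : Field E) (_ : NumberField E) (α : Fin (n + 1) → E) (c : ℚ),
    Module.finrank ℚ (Submodule.span ℚ (Set.range α)) = m ∧
    ∀ x : Fin (n + 1) → ℤ, (eval x F : ℚ) = c * Algebra.norm ℚ (∑ i, (x i : E) * α i)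

/-- `k` if `k < 3 a`, otherwise `2 a + (k mod a) / (⌊k / a⌋ - 1)` -/
noncomputable def weight (a : ℝ) (k : ℕ) : ℝ :=
  if (k : ℝ) < 3 * a then k
  else 2 * a + ((k : ℝ) - ⌊(k : ℝ) / a⌋₊ * a) / (⌊(k : ℝ) / a⌋₊ - 1)

/-- the weights of a component `F = 0` of degree `k` of a divisor of `ℙⁿ`: `weight (1 + 1 / n) k`, and
`weight m k` if it is an orbit of conjugate hyperplanes of rank `m` -/
def HasWeight (F : MvPolynomial (Fin (n + 1)) ℤ) (k : ℕ) (w : ℝ) : Prop :=
  w = weight (1 + 1 / (n : ℝ)) k ∨ ∃ m : ℕ, 1 ≤ m ∧ IsNormForm F m ∧ w = weight m k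

/-- The truncated counting function `N¹_S(D, P)` of the divisor `D : ∏ F_j = 0` of `ℙⁿ` over `ℚ` at the
point `P` with homogeneous coordinates `x` (coprime integers): the sum of `log p` over the primes
`p` outside `S` which divide `∏ F_j(x)`. -/
noncomputable def truncatedCount (S : Finset ℕ) (F : Fin r → MvPolynomial (Fin (n + 1)) ℤ)
    (x : Fin (n + 1) → ℤ) : ℝ :=
  ∑ p ∈ (∏ j, eval x (F j)).natAbs.primeFactors \ S, Real.log p

/-- the exponential of the height of the point with homogeneous coordinates `x` (coprime integers) -/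
def height (x : Fin (n + 1) → ℤ) : ℕ := Finset.univ.sup fun i => (x i).natAbs

/-- The height relative to the ideal `(F, G)` of the point with homogeneous coordinates `x` (coprime
integers), where `F` and `G` are forms of degrees `k` and `e`: the local height at the prime `p` is
`- log max (|F(x)|_p, |G(x)|_p)`, and the sum of these is `log gcd (F(x), G(x))`; the local height
at infinity is `- log max (|F(x)| / |x| ^ k, |G(x)| / |x| ^ e)`. -/
noncomputable def idealHeight (F G : MvPolynomial (Fin (n + 1)) ℤ) (k e : ℕ)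
    (x : Fin (n + 1) → ℤ) : ℝ :=
  Real.log (Int.gcd (eval x F) (eval x G)) -
    Real.log (max (|(eval x F : ℝ)| / (height x : ℝ) ^ k) (|(eval x G : ℝ)| / (height x : ℝ) ^ e))

/-- the points of `ℙⁿ(ℚ)` of height at most `log B`, given by their coordinates (coprime integers of
absolute value at most `B`), on `D` or on some `F'_l = 0` or with
`N¹_S(D, P) < θ log B + Λ ∑ h_{(F'_l, G'_l)}(P)` -/
def Exceptions (S : Finset ℕ) (F : Fin r → MvPolynomial (Fin (n + 1)) ℤ)
    (F' G' : Fin t → MvPolynomial (Fin (n + 1)) ℤ) (k' e' : Fin t → ℕ) (Λ θ : ℝ) (B : ℕ) :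
    Set (Fin (n + 1) → ℤ) :=
  {x | (∀ i, |x i| ≤ B) ∧ Finset.univ.gcd x = 1 ∧
    ((∃ j, eval x (F j) = 0) ∨ (∃ l, eval x (F' l) = 0) ∨ truncatedCount S F x <
      θ * Real.log B + Λ * ∑ l, idealHeight (F' l) (G' l) (k' l) (e' l) x)}

/-- there are at most `C B ^ (n + 1 - c)` exceptions of height at most `log B`, for some `c > 0` and
`C` -/
def AlmostAll (S : Finset ℕ) (F : Fin r → MvPolynomial (Fin (n + 1)) ℤ)
    (F' G' : Fin t → MvPolynomial (Fin (n + 1)) ℤ) (k' e' : Fin t → ℕ) (Λ θ : ℝ) : Prop :=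
  ∃ c : ℝ, 0 < c ∧ ∃ C : ℝ, ∀ B : ℕ, 1 ≤ B →
    (Set.ncard (Exceptions S F F' G' k' e' Λ θ B) : ℝ) ≤ C * (B : ℝ) ^ ((n : ℝ) + 1 - c)

/-- `N¹_S(D, P) ≥ θ h(P) + Λ ∑ h_{(F'_l, G'_l)}(P) - C` for some `C` and all points outside `Z`, not on
`D` and not on any `F'_l = 0` -/
def Outside (Z : Set (Fin (n + 1) → ℤ)) (S : Finset ℕ) (F : Fin r → MvPolynomial (Fin (n + 1)) ℤ)
    (F' G' : Fin t → MvPolynomial (Fin (n + 1)) ℤ) (k' e' : Fin t → ℕ) (Λ θ : ℝ) : Prop :=
  ∃ C : ℝ, ∀ x : Fin (n + 1) → ℤ, Finset.univ.gcd x = 1 → x ∉ Z → (∀ j, eval x (F j) ≠ 0) →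
    (∀ l, eval x (F' l) ≠ 0) →
    θ * Real.log (height x) + Λ * ∑ l, idealHeight (F' l) (G' l) (k' l) (e' l) x - C ≤
      truncatedCount S F x

/-- the number of elements of `Z` with coordinates of absolute value at most `B` is `o(B ^ (n + 1))` -/
def DensityZero (Z : Set (Fin (n + 1) → ℤ)) : Prop :=
  ∀ ε : ℝ, 0 < ε → ∃ B₀ : ℕ, ∀ B : ℕ, B₀ ≤ B →
    (Set.ncard {x : Fin (n + 1) → ℤ | (∀ i, |x i| ≤ B) ∧ x ∈ Z} : ℝ) ≤ ε * (B : ℝ) ^ (n + 1)

theorem prim_of_gcd {x : Fin (n + 1) → ℤ} (hg : Finset.univ.gcd x = 1) :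
    ∃ c : Fin (n + 1) → ℤ, ∑ i, c i * x i = 1 := by
  obtain ⟨f, hf⟩ := Finset.gcd_eq_sum_mul Finset.univ x
  rw [hg] at hf
  exact ⟨f, by rw [hf]; exact Finset.sum_congr rfl fun i _ => mul_comm _ _⟩

theorem weights_le {F : Fin r → MvPolynomial (Fin (n + 1)) ℤ} {k : Fin r → ℕ} {w : Fin r → ℝ}
    (hw : ∀ j, HasWeight (F j) (k j) (w j)) (j : Fin r) :
    w j ≤ N445.DF.wgt (1 + 1 / (n : ℝ)) (k j) ∨ ∃ m : ℕ, N445.DF.IsNormForm (F j) m ∧
      w j ≤ N445.DF.wgt m (k j) := by
  rcases hw j with h | ⟨m, -, h1, h2⟩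
  · exact Or.inl (le_of_eq h)
  · exact Or.inr ⟨m, h1, le_of_eq h2⟩

theorem almostAll (hn : 2 ≤ n) (S : Finset ℕ) (F : Fin r → MvPolynomial (Fin (n + 1)) ℤ)
    (k : Fin r → ℕ) (w : Fin r → ℝ) (hhom : ∀ j, (F j).IsHomogeneous (k j))
    (hirr : ∀ j, Irreducible (map (Int.castRingHom ℚ) (F j)))
    (hdist : ∀ i j, i ≠ j →
      ¬ Associated (map (Int.castRingHom ℚ) (F i)) (map (Int.castRingHom ℚ) (F j)))
    (hw : ∀ j, HasWeight (F j) (k j) (w j))
    (F' G' : Fin t → MvPolynomial (Fin (n + 1)) ℤ) (k' e' : Fin t → ℕ)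
    (hhom' : ∀ l, (F' l).IsHomogeneous (k' l))
    (hirr' : ∀ l, Irreducible (map (Int.castRingHom ℚ) (F' l)))
    (hcop : ∀ l, ¬ map (Int.castRingHom ℚ) (F' l) ∣ map (Int.castRingHom ℚ) (G' l))
    (Λ : ℝ) (hΛ : 0 ≤ Λ) (θ : ℝ) (hθ : θ < ∑ j, w j) :
    AlmostAll S F F' G' k' e' Λ θ := by
  obtain ⟨c, hc, C, -, h⟩ := N445.DF.main_h hn S F k w hhom hirr hdist (weights_le hw) F' G' k' e'
    hhom' hirr' hcop Λ hΛ θ hθ
  refine ⟨c, hc, C, fun B hB => ?_⟩
  have h1 := h B hB
  push_cast at h1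
  refine le_trans ?_ h1
  refine Nat.cast_le.2 (Set.ncard_le_ncard ?_ ((TH910.Voj.finite_sub (n + 1) B _)))
  rintro x ⟨hx, hg, hbad⟩
  exact ⟨TH910.Voj.mem_box.2 hx, prim_of_gcd hg, hbad⟩

theorem weight_pos (a : ℝ) (k : ℕ) (ha : 0 < a) (hk : 1 ≤ k) : 0 < weight a k := by
  by_cases h : (k : ℝ) < 3 * a
  · have : weight a k = k := N445.DF.wgt_nat a k h
    rw [this]
    exact_mod_cast hk
  · push Not at h
    have : 2 * a ≤ weight a k := N445.DF.wgt_two a k ha (by linarith)
    linarith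

/-- **The truncated counting function of a reduced divisor of `ℙⁿ`, for almost all points.** -/
theorem result (n : ℕ) (hn : 2 ≤ n) :
    (∃ Z : Set (Fin (n + 1) → ℤ), DensityZero Z ∧
      ∀ (r t : ℕ) (S : Finset ℕ) (F : Fin r → MvPolynomial (Fin (n + 1)) ℤ) (k : Fin r → ℕ)
        (w : Fin r → ℝ) (_ : ∀ j, (F j).IsHomogeneous (k j))
        (_ : ∀ j, Irreducible (map (Int.castRingHom ℚ) (F j)))
        (_ : ∀ i j, i ≠ j →
          ¬ Associated (map (Int.castRingHom ℚ) (F i)) (map (Int.castRingHom ℚ) (F j)))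
        (_ : ∀ j, HasWeight (F j) (k j) (w j))
        (F' G' : Fin t → MvPolynomial (Fin (n + 1)) ℤ) (k' e' : Fin t → ℕ)
        (_ : ∀ l, (F' l).IsHomogeneous (k' l)) (_ : ∀ l, (G' l).IsHomogeneous (e' l))
        (_ : ∀ l, Irreducible (map (Int.castRingHom ℚ) (F' l)))
        (_ : ∀ l, ¬ map (Int.castRingHom ℚ) (F' l) ∣ map (Int.castRingHom ℚ) (G' l))
        (Λ : ℝ) (_ : 0 ≤ Λ),
        (∀ θ : ℝ, θ < ∑ j, w j →
          AlmostAll S F F' G' k' e' Λ θ ∧ (1 ≤ r → Outside Z S F F' G' k' e' Λ θ)) ∧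
        (∑ j, ((k j : ℝ) - w j) ≤ n + 1 → ∀ ε : ℝ, 0 < ε →
          AlmostAll S F F' G' k' e' Λ (((∑ j, k j : ℕ) : ℝ) - (n + 1) - ε) ∧
          (1 ≤ r → Outside Z S F F' G' k' e' Λ (((∑ j, k j : ℕ) : ℝ) - (n + 1) - ε)))) ∧
    (∀ k : ℕ, k ≤ 3 → weight (1 + 1 / (n : ℝ)) k = k) ∧
    (n = 2 → weight (1 + 1 / (n : ℝ)) 4 = 4) ∧
    (∀ k : ℕ, n * k ≤ (n + 1) * (n + 2) → (k : ℝ) - weight (1 + 1 / (n : ℝ)) k ≤ n + 1) ∧
    (∀ m k : ℕ, k < 3 * m → weight m k = k) ∧
    (∀ m k : ℕ, 1 ≤ m → k ≤ 3 * m → (k : ℝ) - weight m k ≤ m) ∧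
    (∀ (a : ℝ) (k : ℕ), 0 < a → 2 * a ≤ k → 2 * a ≤ weight a k) := by
  have hn0 : (0 : ℝ) < n := by exact_mod_cast (by omega : 0 < n)
  have hnn : (0 : ℝ) < 1 / (n : ℝ) := by positivity
  obtain ⟨Z, hZ, hall⟩ := N445.DF.one_set hn
  refine ⟨⟨Z, ?_, ?_⟩, ?_, ?_, ?_, ?_, ?_, ?_⟩
  · intro ε hε
    obtain ⟨B₀, hB₀⟩ := hZ ε hε
    refine ⟨B₀, fun B hB => ?_⟩
    refine le_trans (le_of_eq ?_) (hB₀ B hB)
    congr 2
    ext x
    simp only [Set.mem_ofPred_eq, TH910.Voj.mem_box]
  · intro r t S F k w hhom hirr hdist hw F' G' k' e' hhom' hhomG hirr' hcop Λ hΛ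
    have key : ∀ θ : ℝ, θ < ∑ j, w j →
        AlmostAll S F F' G' k' e' Λ θ ∧ (1 ≤ r → Outside Z S F F' G' k' e' Λ θ) := by
      intro θ hθ
      refine ⟨almostAll hn S F k w hhom hirr hdist hw F' G' k' e' hhom' hirr' hcop Λ hΛ θ hθ,
        fun hr => ?_⟩
      have hpos : ∀ j, 0 < w j := by
        intro j
        have hk1 := N445.VW.one_le_of_irr (F j) (hhom j) (hirr j)
        rcases hw j with h | ⟨m, hm, -, h⟩
        · rw [h]
          exact weight_pos _ _ (by linarith) hk1
        · rw [h]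
          exact weight_pos _ _ (by exact_mod_cast hm) hk1
      have hsum : 0 < ∑ j, w j := by
        have : Nonempty (Fin r) := ⟨⟨0, hr⟩⟩
        exact Finset.sum_pos (fun j _ => hpos j) Finset.univ_nonempty
      obtain ⟨C, hC⟩ := hall r t S F k w hhom hirr hdist (weights_le hw) F' G' k' e' hhom' hhomG
        hirr' hcop Λ hΛ hsum θ hθ
      refine ⟨C, fun x hg hxZ hxF hxF' => ?_⟩
      have h1 := hC x (prim_of_gcd hg) hxZ hxF hxF'
      have h2 : θ * Real.log (height x) + Λ * ∑ l, idealHeight (F' l) (G' l) (k' l) (e' l) x ≤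
          truncatedCount S F x + C := h1
      linarith
    refine ⟨key, fun hsum ε hε => key _ ?_⟩
    rw [Finset.sum_sub_distrib] at hsum
    push_cast
    linarith
  · intro k hk
    have hk3 : (k : ℝ) ≤ 3 := by exact_mod_cast hk
    exact N445.DF.wgt_nat _ k (by linarith)
  · intro h
    subst h
    have := N445.DF.wgt_nat (1 + 1 / ((2 : ℕ) : ℝ)) 4 (by norm_num)
    exact_mod_cast this
  · intro k hk
    exact N445.DF.wgt_sub_gen n k hn hk
  · intro m k hk
    exact N445.DF.wgt_nat m k (by exact_mod_cast hk)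
  · intro m k hm hk
    exact N445.DF.wgt_sub_norm m k (by exact_mod_cast hm) (by exact_mod_cast hk)
  · intro a k ha hk
    exact N445.DF.wgt_two a k ha hk

end Pool.Agent.Results.MP_9ec3f0_nt.ConjugateHyperplanes
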