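import Mathlib
import Pool.Agent.N906.KG.AllG

/-!
# Vojta's conjecture with truncated counting function on `P¹ × P¹`: the exact size, up to the second order term, of the
# sets of the points with small counting function for grids

`K` is a number field of degree `d`, `X = P¹ × P¹`, `D` the grid `{α_1, ..., α_q} × P¹ ∪ P¹ × {β_1, ..., β_r}` (the
`α_i` are different points of `P¹(K)`, also the `β_j`), `S` a finite set of primes, `0 < κ < 1/3`, `c` real. For every curve
`G = 0` the number `V(B)` of the points `(P, Q) ∈ X(K)` off `D` and off `G = 0`, with `h(P), h(Q) ≤ log B` and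
`N_S^(1)(D, (P, Q)) ≤ (q - κ) h(P) + (r - κ) h(Q) + c` satisfies

  `log V(B) = d (4 - 2 κ) log B + (C (2 κ d)^(2/3) + o(1)) (log B / log log B)^(2/3)`, `C = (3/2)^(5/3) (q r)^(1/3)`.
-/

set_option autoImplicit false

namespace Pool.Agent.Results.MP_9ec3f0_nt.GridSecondOrder

open NumberField IsDedekindDomain Filter Topology

section

variable {K : Type} [Field K] [NumberField K]

/-- the absolute logarithmic height of a point (`Height.logHeight` is relative to `K`) -/
noncomputable def height (P : Projectivization K (Fin 2 → K)) : ℝ :=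
  Height.logHeight P.rep / (Module.finrank ℚ K : ℝ)

/-- `P` is none of the points `α_i` -/
def Off {q : ℕ} (α : Fin q → Fin 2 → K) (P : Projectivization K (Fin 2 → K)) : Prop :=
  ∀ i, P.rep 0 * α i 1 - P.rep 1 * α i 0 ≠ 0

/-- the local height for the point `a` at the prime `v`: `log (max |P_i|_v max |a_i|_v / |P_0 a_1 - P_1 a_0|_v)`,
divided by `[K : ℚ]` -/
noncomputable def localHeight (v : HeightOneSpectrum (𝓞 K)) (a : Fin 2 → K)
    (P : Projectivization K (Fin 2 → K)) : ℝ :=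
  Real.log (max (FinitePlace.mk v (P.rep 0)) (FinitePlace.mk v (P.rep 1)) *
    max (FinitePlace.mk v (a 0)) (FinitePlace.mk v (a 1)) /
      FinitePlace.mk v (P.rep 0 * a 1 - P.rep 1 * a 0)) / (Module.finrank ℚ K : ℝ)

/-- the truncated counting function `N_S^(1)(D, (P, Q))` of the grid
`D = {α_1, ..., α_q} × P¹ ∪ P¹ × {β_1, ..., β_r}` -/
noncomputable def truncated (S : Finset (HeightOneSpectrum (𝓞 K))) {q r : ℕ} (α : Fin q → Fin 2 → K)
    (β : Fin r → Fin 2 → K) (P Q : Projectivization K (Fin 2 → K)) : ℝ :=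
  ∑ᶠ (v : HeightOneSpectrum (𝓞 K)) (_ : v ∉ S),
    min (Real.log (Ideal.absNorm v.asIdeal : ℝ) / (Module.finrank ℚ K : ℝ))
      (∑ i, localHeight v (α i) P + ∑ j, localHeight v (β j) Q)

/-- the value of a bihomogeneous form at `(P, Q)` (in the coordinates `P.rep`, `Q.rep`) -/
noncomputable def value (G : MvPolynomial (Fin 4) K) (P Q : Projectivization K (Fin 2 → K)) : K :=
  MvPolynomial.eval ![P.rep 0, P.rep 1, Q.rep 0, Q.rep 1] G

/-- `G(x_0, x_1, y_0, y_1)` is homogeneous in `x` and homogeneous in `y` -/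
def Bihomogeneous (G : MvPolynomial (Fin 4) K) : Prop :=
  ∃ a b : ℕ, ∀ m ∈ G.support, m 0 + m 1 = a ∧ m 2 + m 3 = b

/-- the points `(P, Q)` off the grid and off the curve `G = 0`, of heights at most `B`, with
`N_S^(1)(D, (P, Q)) ≤ (q - κ) h(P) + (r - κ) h(Q) + c` -/
def Points (S : Finset (HeightOneSpectrum (𝓞 K))) {q r : ℕ} (α : Fin q → Fin 2 → K)
    (β : Fin r → Fin 2 → K) (G : MvPolynomial (Fin 4) K) (κ c B : ℝ) :
    Set (Projectivization K (Fin 2 → K) × Projectivization K (Fin 2 → K)) :=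
  {p | Off α p.1 ∧ Off β p.2 ∧ value G p.1 p.2 ≠ 0 ∧ Real.exp (height p.1) ≤ B ∧
    Real.exp (height p.2) ≤ B ∧
    truncated S α β p.1 p.2 ≤ ((q : ℝ) - κ) * height p.1 + ((r : ℝ) - κ) * height p.2 + c}

end

theorem log_nat_mono {a b : ℕ} (h : a ≤ b) : Real.log (a : ℝ) ≤ Real.log (b : ℝ) := by
  rcases Nat.eq_zero_or_pos a with rfl | ha
  · rw [Nat.cast_zero, Real.log_zero]
    exact Real.log_natCast_nonneg b
  · exact Real.log_le_log (by exact_mod_cast ha) (by exact_mod_cast h)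

/-- sets between two families with the same asymptotics -/
theorem squeeze {α : Type} {U V W : ℝ → Set α} (h1 : ∀ x, U x ⊆ V x) (h2 : ∀ x, V x ⊆ W x)
    (hfin : ∀ x, (W x).Finite) {m s : ℝ → ℝ} (hs : ∀ᶠ x in atTop, 0 ≤ s x) {L : ℝ}
    (hU : Tendsto (fun x : ℝ => (Real.log ((U x).ncard : ℝ) - m x) / s x) atTop (𝓝 L))
    (hW : Tendsto (fun x : ℝ => (Real.log ((W x).ncard : ℝ) - m x) / s x) atTop (𝓝 L)) :
    Tendsto (fun x : ℝ => (Real.log ((V x).ncard : ℝ) - m x) / s x) atTop (𝓝 L) := by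
  refine tendsto_of_tendsto_of_tendsto_of_le_of_le' hU hW ?_ ?_
  · filter_upwards [hs] with x hx
    have := log_nat_mono (Set.ncard_le_ncard (h1 x) ((hfin x).subset (h2 x)))
    exact div_le_div_of_nonneg_right (by linarith) hx
  · filter_upwards [hs] with x hx
    have := log_nat_mono (Set.ncard_le_ncard (h2 x) (hfin x))
    exact div_le_div_of_nonneg_right (by linarith) hx

theorem scale_nonneg (ρ : ℝ) :
    ∀ᶠ B : ℝ in atTop, 0 ≤ (Real.log B / Real.log (Real.log B)) ^ ρ := by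
  filter_upwards [eventually_ge_atTop (Real.exp 1)] with B hB
  have h1 : 1 ≤ Real.log B := by
    rw [Real.le_log_iff_exp_le ((Real.exp_pos 1).trans_le hB)]
    exact hB
  exact Real.rpow_nonneg (div_nonneg (by linarith) (Real.log_nonneg h1)) _

/-- a finite sum over the primes without the primes of `S` -/
theorem sum_bounds {ι : Type} (S : Finset ι) (m e : ι → ℝ) (h0 : ∀ v, 0 ≤ m v) (h1 : ∀ v, m v ≤ e v)
    (hf : (Function.support m).Finite) :
    ∑ᶠ (v : ι) (_ : v ∉ S), m v ≤ ∑ᶠ v : ι, m v ∧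
      ∑ᶠ v : ι, m v ≤ ∑ᶠ (v : ι) (_ : v ∉ S), m v + ∑ v ∈ S, e v := by
  classical
  have e1 : ∑ᶠ v : ι, m v = ∑ v ∈ hf.toFinset, m v :=
    finsum_eq_sum_of_support_subset _ (by rw [Set.Finite.coe_toFinset])
  have e2 : ∑ᶠ (v : ι) (_ : v ∉ S), m v = ∑ v ∈ hf.toFinset \ S, m v := by
    have h2 : ∀ v : ι, (∑ᶠ (_ : v ∉ S), m v) = if v ∈ S then 0 else m v := by
      intro v
      by_cases hv : v ∈ S
      · rw [if_pos hv, finsum_eq_if, if_neg (not_not_intro hv)]
      · rw [if_neg hv, finsum_eq_if, if_pos hv]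
    rw [finsum_congr h2]
    have h3 : Function.support (fun v : ι => if v ∈ S then (0 : ℝ) else m v) ⊆
        ((hf.toFinset \ S : Finset ι) : Set ι) := by
      intro v hv
      rw [Function.mem_support] at hv
      split_ifs at hv with h
      · exact absurd rfl hv
      · rw [Finset.mem_coe, Finset.mem_sdiff, Set.Finite.mem_toFinset]
        exact ⟨hv, h⟩
    rw [finsum_eq_sum_of_support_subset _ h3]
    refine Finset.sum_congr rfl fun v hv => ?_
    rw [if_neg (Finset.mem_sdiff.1 hv).2]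
  have e3 : ∑ v ∈ hf.toFinset \ S, m v + ∑ v ∈ hf.toFinset ∩ S, m v = ∑ v ∈ hf.toFinset, m v := by
    rw [← Finset.sum_union (Finset.disjoint_sdiff_inter _ _), Finset.sdiff_union_inter]
  have h5 : 0 ≤ ∑ v ∈ hf.toFinset ∩ S, m v := Finset.sum_nonneg fun v _ => h0 v
  have h6 : ∑ v ∈ hf.toFinset ∩ S, m v ≤ ∑ v ∈ S, e v :=
    (Finset.sum_le_sum_of_subset_of_nonneg Finset.inter_subset_right fun v _ _ => h0 v).trans
      (Finset.sum_le_sum fun v _ => h1 v)
  rw [e1, e2]
  constructor <;> linarith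

open Pool.Agent.H691R3 in
theorem local_nonneg {K : Type} [Field K] [NumberField K] (v : HeightOneSpectrum (𝓞 K))
    {a : Fin 2 → K} (ha : a ≠ 0) (P : Projectivization K (Fin 2 → K))
    (h : P.rep 0 * a 1 - P.rep 1 * a 0 ≠ 0) : 0 ≤ localHeight v a P := by
  have hP : ((P.rep 0, P.rep 1) : K × K) ≠ 0 := by
    intro hcon
    rw [Prod.ext_iff] at hcon
    refine h ?_
    have h1 : P.rep 0 = 0 := hcon.1
    have h2 : P.rep 1 = 0 := hcon.2
    rw [h1, h2, zero_mul, zero_mul, sub_zero]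
  have ha' : ((a 0, a 1) : K × K) ≠ 0 := by
    intro hcon
    rw [Prod.ext_iff] at hcon
    refine ha (funext fun i => ?_)
    fin_cases i
    · exact hcon.1
    · exact hcon.2
  have h1 := lamF_nonneg v hP ha' h
  show 0 ≤ lamA (fv v) (P.rep 0, P.rep 1) (a 0, a 1) / (Module.finrank ℚ K : ℝ)
  exact div_nonneg h1 (Nat.cast_nonneg _)

open Pool.Agent.H691R3 in
theorem local_finite {K : Type} [Field K] [NumberField K] {a : Fin 2 → K} (ha : a ≠ 0)
    (P : Projectivization K (Fin 2 → K)) (h : P.rep 0 * a 1 - P.rep 1 * a 0 ≠ 0) :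
    {v : HeightOneSpectrum (𝓞 K) | localHeight v a P ≠ 0}.Finite := by
  have hP : ((P.rep 0, P.rep 1) : K × K) ≠ 0 := by
    intro hcon
    rw [Prod.ext_iff] at hcon
    refine h ?_
    have h1 : P.rep 0 = 0 := hcon.1
    have h2 : P.rep 1 = 0 := hcon.2
    rw [h1, h2, zero_mul, zero_mul, sub_zero]
  have ha' : ((a 0, a 1) : K × K) ≠ 0 := by
    intro hcon
    rw [Prod.ext_iff] at hcon
    refine ha (funext fun i => ?_)
    fin_cases i
    · exact hcon.1
    · exact hcon.2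
  refine (lamF_support_finite hP ha' h).subset fun v hv hcon => hv ?_
  show lamA (fv v) (P.rep 0, P.rep 1) (a 0, a 1) / (Module.finrank ℚ K : ℝ) = 0
  rw [hcon, zero_div]

open Pool.Agent.N906.KG in
/-- comparison of the counting functions for `S` and without `S` -/
theorem truncated_bounds {K : Type} [Field K] [NumberField K]
    (S : Finset (HeightOneSpectrum (𝓞 K))) {q r : ℕ} {α : Fin q → Fin 2 → K} {β : Fin r → Fin 2 → K}
    (hα : ∀ i, α i ≠ 0) (hβ : ∀ j, β j ≠ 0) (P Q : Projectivization K (Fin 2 → K))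
    (hP : Off α P) (hQ : Off β Q) :
    truncated S α β P Q ≤ cnt1 α β P Q ∧ cnt1 α β P Q ≤ truncated S α β P Q +
      ∑ v ∈ S, Real.log (Ideal.absNorm v.asIdeal : ℝ) / (Module.finrank ℚ K : ℝ) := by
  refine sum_bounds S (fun v => min (Real.log (Ideal.absNorm v.asIdeal : ℝ) /
    (Module.finrank ℚ K : ℝ)) (∑ i, localHeight v (α i) P + ∑ j, localHeight v (β j) Q))
    (fun v => Real.log (Ideal.absNorm v.asIdeal : ℝ) / (Module.finrank ℚ K : ℝ)) ?_ ?_ ?_
  · intro v
    refine le_min (div_nonneg (Real.log_natCast_nonneg _) (Nat.cast_nonneg _)) (add_nonneg ?_ ?_)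
    · exact Finset.sum_nonneg fun i _ => local_nonneg v (hα i) P (hP i)
    · exact Finset.sum_nonneg fun j _ => local_nonneg v (hβ j) Q (hQ j)
  · exact fun v => min_le_left _ _
  · refine ((Set.finite_iUnion fun i => local_finite (hα i) P (hP i)).union
      (Set.finite_iUnion fun j => local_finite (hβ j) Q (hQ j))).subset fun v hv => ?_
    by_contra hcon
    rw [Set.mem_union, not_or, Set.mem_iUnion, Set.mem_iUnion] at hcon
    push Not at hcon
    obtain ⟨h1, h2⟩ := hcon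
    rw [Function.mem_support] at hv
    refine hv ?_
    have e1 : ∑ i, localHeight v (α i) P = 0 := by
      refine Finset.sum_eq_zero fun i _ => ?_
      have := h1 i
      rwa [Set.mem_ofPred_eq, not_not] at this
    have e2 : ∑ j, localHeight v (β j) Q = 0 := by
      refine Finset.sum_eq_zero fun j _ => ?_
      have := h2 j
      rwa [Set.mem_ofPred_eq, not_not] at this
    show min (Real.log (Ideal.absNorm v.asIdeal : ℝ) / (Module.finrank ℚ K : ℝ))
      (∑ i, localHeight v (α i) P + ∑ j, localHeight v (β j) Q) = 0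
    rw [e1, e2, add_zero]
    exact min_eq_right (div_nonneg (Real.log_natCast_nonneg _) (Nat.cast_nonneg _))

open Pool.Agent.N906.KG in
/-- **Theorem.** Let `K` be a number field of degree `d`, `α_1, ..., α_q` different points of `P¹(K)`, `β_1, ..., β_r` also
(`q, r ≥ 1`), `S` a finite set of primes, `G ≠ 0` a bihomogeneous form over `K`, `0 < κ < 1/3` and `c` real. The number `V(B)`
of the points `(P, Q)` of `P¹ × P¹` over `K` off the grid and off `G = 0`, of heights at most `B`, with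
`N_S^(1)(D, (P, Q)) ≤ (q - κ) h(P) + (r - κ) h(Q) + c` is finite, and
`(log V(B) - d (4 - 2 κ) log B) / (log B / log log B)^(2/3)` tends to `(3/2)^(5/3) (q r)^(1/3) (2 κ d)^(2/3)`. -/
theorem result : ∀ (K : Type) [Field K] [NumberField K] (q r : ℕ) (α : Fin q → Fin 2 → K)
    (β : Fin r → Fin 2 → K) (S : Finset (HeightOneSpectrum (𝓞 K))) (G : MvPolynomial (Fin 4) K)
    (κ c : ℝ), 1 ≤ q → 1 ≤ r → (∀ i, α i ≠ 0) → (∀ j, β j ≠ 0) →
    (∀ i j, i ≠ j → α i 0 * α j 1 - α i 1 * α j 0 ≠ 0) →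
    (∀ i j, i ≠ j → β i 0 * β j 1 - β i 1 * β j 0 ≠ 0) → G ≠ 0 → Bihomogeneous G →
    0 < κ → κ < 1 / 3 →
    (∀ B : ℝ, (Points S α β G κ c B).Finite) ∧
    Tendsto (fun B : ℝ => (Real.log ((Points S α β G κ c B).ncard : ℝ) -
        Module.finrank ℚ K * (4 - 2 * κ) * Real.log B) /
      (Real.log B / Real.log (Real.log B)) ^ ((2 : ℝ) / 3)) atTop
      (𝓝 ((3 / 2) ^ ((5 : ℝ) / 3) * ((q : ℝ) * r) ^ ((1 : ℝ) / 3) *
        (2 * κ * Module.finrank ℚ K) ^ ((2 : ℝ) / 3))) := by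
  intro K _ _ q r α β S G κ c hq hr hα hβ hα' hβ' hG hb hκ0 hκ1
  set E : ℝ := ∑ v ∈ S, Real.log (Ideal.absNorm v.asIdeal : ℝ) / (Module.finrank ℚ K : ℝ) with hE
  obtain ⟨f1, a1⟩ := fing_all K q r α β G κ c hq hr hα hβ hα' hβ' hG hb hκ0 hκ1
  obtain ⟨f2, a2⟩ := fing_all K q r α β G κ (c + E) hq hr hα hβ hα' hβ' hG hb hκ0 hκ1
  have s1 : ∀ B, GV α β G κ c B ⊆ Points S α β G κ c B := by
    rintro B p ⟨h1, h2, h3, h4, h5, h6⟩
    exact ⟨h1, h2, h3, h4, h5, ((truncated_bounds S hα hβ p.1 p.2 h1 h2).1).trans h6⟩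
  have s2 : ∀ B, Points S α β G κ c B ⊆ GV α β G κ (c + E) B := by
    rintro B p ⟨h1, h2, h3, h4, h5, h6⟩
    refine ⟨h1, h2, h3, h4, h5, ((truncated_bounds S hα hβ p.1 p.2 h1 h2).2).trans ?_⟩
    rw [← hE]
    have h7 : truncated S α β p.1 p.2 ≤ ((q : ℝ) - κ) * hh p.1 + ((r : ℝ) - κ) * hh p.2 + c := h6
    linarith
  exact ⟨fun B => (f2 B).subset (s2 B), squeeze s1 s2 f2 (scale_nonneg _) a1 a2⟩

end Pool.Agent.Results.MP_9ec3f0_nt.GridSecondOrder
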