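import Pool.Agent.N753.SU.Idl
import Pool.Agent.N753.SU.Od
import Pool.Agent.N73.SU.SU_RM
import Pool.Agent.N222.SU_OM
import Pool.Agent.N348.SU_UZM
import Pool.Agent.N199.SU_B
import Pool.Agent.N123.OD1
import Pool.Agent.N692.SU.OD2
import Pool.Agent.N478.SU.OD3

/-!
# Vojta's conjecture with truncated counting function on varieties birational to `(P¹)^m`: almost
# all points, all divisors at once

`K` is a number field, `m ≥ 1`. A reduced effective divisor `D` of `(P¹)^m` is the sum of finitely
many prime divisors `F_j = 0` (`F_j` an irreducible polynomial in `m` variables over `K`) and of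
some of the divisors `x_i = ∞`. The components may have arbitrary singularities and intersections.
Let `(q_1, …, q_m)` be the multidegree of `D` and `δ(D)` the sum of `k_j - 2` over the components
`F_j = 0` of total degree `k_j ≥ 6`.

There is ONE set `E` of points of density zero such that for all `D`, all finite sets `S` of primes
and all `ε > 0` there is a constant `C` with
`N^(1)_S(D, x) ≥ ∑ (q_i - δ(D) / m - ε) h(x_i) - C`
for all `x = (x_1, …, x_m)` outside `E` and off `D`. As `h_{K_X + D}(x) = ∑ (q_i - 2) h(x_i)` for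
`X = (P¹)^m`, this contains the conjectured inequality if `δ(D) ≤ 2 m`, for example for all `D`
whose components have total degree at most five, and for all irreducible `D` of total degree at
most `2 m + 2`. Moreover, one can add on the right hand side an arbitrary multiple of the height
`h_{(F', G')}(x)` relative to any ideal `(F', G')` of codimension two. On a smooth projective
variety `X` birational to `(P¹)^m` the heights relative to the divisors contracted in `(P¹)^m` are
bounded by multiples of such heights. So the result concerns all these varieties.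
-/

set_option autoImplicit false

namespace Pool.Agent.Results.MP_9ec3f0_nt.ProductsOfLines

open NumberField IsDedekindDomain

/-- the local height at the prime `v` of the point `x`, relative to the divisor `F = 0` of `(P¹)^m`
(with respect to the closure of this divisor over the local ring of `v`): the logarithm of
`|F|_v ∏ max (1, |x_i|_v) ^ d_i / |F(x)|_v`, where `|F|_v` is the maximum of the absolute values of
the coefficients and `d_i` is the degree of `F` in the variable `x_i` -/
noncomputable def localHeight {K : Type} [Field K] [NumberField K] {m : ℕ}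
    (v : HeightOneSpectrum (𝓞 K)) (F : MvPolynomial (Fin m) K) (x : Fin m → K) : ℝ :=
  Real.log (⨆ s : F.support, FinitePlace.mk v (F.coeff s)) +
    ∑ i, (F.degreeOf i : ℝ) * Real.log (max 1 (FinitePlace.mk v (x i))) -
      Real.log (FinitePlace.mk v (MvPolynomial.eval x F))

/-- the truncated counting function `N_S^(1)(D, x)` of the sum `D` of the divisors `F_j = 0` and of
the divisors `x_i = ∞` with `i ∈ I`: the sum over the primes `v ∉ S` of the minimum of `log N(v)`
and of the local height relative to `D` -/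
noncomputable def counting {K : Type} [Field K] [NumberField K] {m r : ℕ}
    (S : Set (HeightOneSpectrum (𝓞 K))) (F : Fin r → MvPolynomial (Fin m) K) (I : Finset (Fin m))
    (x : Fin m → K) : ℝ :=
  ∑ᶠ (v : HeightOneSpectrum (𝓞 K)) (_ : v ∉ S), min (Real.log (Ideal.absNorm v.asIdeal : ℝ))
    (∑ j, localHeight v (F j) x + ∑ i ∈ I, Real.log (max 1 (FinitePlace.mk v (x i))))

/-- the degree `q_i` of `D` in the variable `x_i` -/
noncomputable def degree {K : Type} [Field K] {m r : ℕ} (F : Fin r → MvPolynomial (Fin m) K)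
    (I : Finset (Fin m)) (i : Fin m) : ℕ :=
  ∑ j, (F j).degreeOf i + if i ∈ I then 1 else 0

/-- the total degree of `F`, as a divisor of `(P¹)^m`: the sum of its degrees in the variables -/
noncomputable def totalDegree {K : Type} [Field K] {m : ℕ} (F : MvPolynomial (Fin m) K) : ℕ :=
  ∑ i, F.degreeOf i

/-- the defect `δ(D)`: the sum of `k - 2` over the components of total degree `k ≥ 6` -/
noncomputable def defect {K : Type} [Field K] {m r : ℕ} (F : Fin r → MvPolynomial (Fin m) K) : ℕ :=
  ∑ j, if 6 ≤ totalDegree (F j) then totalDegree (F j) - 2 else 0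

/-- the local height at the place `v` of the point `x` relative to the ideal `(F, G)` -/
noncomputable def idealLocal {K : Type} [Field K] [NumberField K] {m : ℕ}
    (F G : MvPolynomial (Fin m) K) (x : Fin m → K) (v : K → ℝ) : ℝ :=
  -Real.log (max (v (MvPolynomial.eval x F) / ∏ i, (max 1 (v (x i))) ^ F.degreeOf i)
    (v (MvPolynomial.eval x G) / ∏ i, (max 1 (v (x i))) ^ G.degreeOf i))

/-- the height `h_{(F, G)}(x)` of the point `x` of `(P¹)^m` relative to the ideal `(F, G)`: the sum
over all places of the local heights (if `F` and `G` do not both vanish at `x`) -/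
noncomputable def idealHeight {K : Type} [Field K] [NumberField K] {m : ℕ}
    (F G : MvPolynomial (Fin m) K) (x : Fin m → K) : ℝ :=
  ∑ w : InfinitePlace K, (w.mult : ℝ) * idealLocal F G x w +
    ∑ᶠ v : HeightOneSpectrum (𝓞 K), idealLocal F G x (FinitePlace.mk v)

open Pool.Agent.N753.SU in
theorem stmOD : StmOD :=
  Pool.Agent.N753.SU.stmOD (Pool.Agent.N692.SU.od2 Pool.Agent.N123.OD1.od1)
    Pool.Agent.N478.SU.stmOD3

open Pool.Agent.N753.SU in
theorem stmLM : StmLM :=
  Pool.Agent.N753.SU.stmLM Pool.Agent.N348.SU.um Pool.Agent.N348.SU.zm Pool.Agent.N199.SU.stmB1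
    Pool.Agent.N199.SU.stmB2 Pool.Agent.N199.SU.stmB3

open Pool.Agent.N753.SU in
theorem sum_degree {K : Type} [Field K] [NumberField K] {m r : ℕ}
    (F : Fin r → MvPolynomial (Fin m) K) (I : Finset (Fin m)) :
    (∑ i, (degree F I i : ℝ)) = wtt F I + defect F := by
  have h1 : ∀ k : ℕ, (k : ℝ) = (wt k : ℝ) + (if 6 ≤ k then k - 2 else 0 : ℕ) := by
    intro k
    unfold wt
    split_ifs with h2 h3 h3
    · omega
    · simp
    · have : 2 ≤ k := by omega
      push_cast [Nat.cast_sub this]
      ring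
    · omega
  have h2 : ∑ i, degree F I i = ∑ j, totalDegree (F j) + I.card := by
    unfold degree totalDegree
    rw [Finset.sum_add_distrib, Finset.sum_comm]
    congr 1
    simp
  have h3 : (∑ i, (degree F I i : ℝ)) = ∑ j, (totalDegree (F j) : ℝ) + I.card := by
    exact_mod_cast h2
  rw [h3]
  unfold wtt defect
  rw [Finset.sum_congr rfl fun j _ => h1 (totalDegree (F j)), Finset.sum_add_distrib]
  push_cast
  unfold totalDegree
  ring

open Pool.Agent.N753.SU Pool.Agent.N753.LS Pool.Agent.H691R3 in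
open Classical in
/-- the lower bound for the truncated counting function -/
theorem lower {K : Type} [Field K] [NumberField K] {m : ℕ} (hm : 0 < m) {E : Set (Fin m → K)}
    (hmain : ∀ (r : ℕ) (F : Fin r → MvPolynomial (Fin m) K) (I : Finset (Fin m)),
        (∀ j, Irreducible (F j)) → (∀ j k, j ≠ k → ¬ Associated (F j) (F k)) → ∀ κ : ℝ, 0 < κ →
        ∃ h0 : ℝ, ∀ x : Fin m → K, x ∉ E → h0 ≤ htm x →
          (∀ j, MvPolynomial.eval x (F j) ≠ 0) →
            (wtt F I - κ) * htm x ≤ ∑ v ∈ UU F I x, Real.log (Nv v) ∧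
              ∀ i, (1 - κ) * htm x ≤ hr (aff (x i)))
    {r : ℕ} (F : Fin r → MvPolynomial (Fin m) K) (I : Finset (Fin m))
    {S : Set (HeightOneSpectrum (𝓞 K))} (hF : ∀ j, Irreducible (F j))
    (hFF : ∀ j k, j ≠ k → ¬ Associated (F j) (F k)) (hS : S.Finite) {ε : ℝ} (hε : 0 < ε) :
    ∃ C : ℝ, ∀ x : Fin m → K, x ∉ E → (∀ j, MvPolynomial.eval x (F j) ≠ 0) →
      ∑ i, ((degree F I i : ℝ) - (defect F : ℝ) / m - ε) * Height.logHeight₁ (x i) ≤
        counting S F I x + C := by
  have hF0 : ∀ j, F j ≠ 0 := fun j => (hF j).ne_zero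
  have hcount : ∀ x, counting S F I x = cnt1 S F I x := fun x => rfl
  have hh : ∀ z : K, hr (aff z) = Height.logHeight₁ z := fun z => hr_aff z
  obtain ⟨C1, hC1, h1⟩ := cnt1_ge hS F hF0 I
  obtain ⟨d, hd⟩ : ∃ d : ℝ, d = defect F := ⟨_, rfl⟩
  have hd0 : 0 ≤ d := by rw [hd]; exact Nat.cast_nonneg _
  obtain ⟨κ, hκ⟩ : ∃ κ : ℝ, κ = ε / (d + 1 + ε) := ⟨_, rfl⟩
  have hκ0 : 0 < κ := by rw [hκ]; positivity
  have hκd : κ * (d + 1 + ε) = ε := by rw [hκ]; field_simp
  have hκ1 : κ ≤ 1 := by
    rw [hκ, div_le_one (by positivity)]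
    linarith
  obtain ⟨h0, h2⟩ := hmain r F I hF hFF κ hκ0
  have hsum := sum_degree F I
  have hmR : (1 : ℝ) ≤ m := by exact_mod_cast hm
  refine ⟨C1 + (∑ i, (degree F I i : ℝ)) * max h0 0, ?_⟩
  intro x hxE hx
  obtain ⟨t, ht⟩ : ∃ t : ℝ, t = htm x := ⟨_, rfl⟩
  have hle : ∀ i, Height.logHeight₁ (x i) ≤ t := fun i => by rw [ht]; exact le_htm x i
  have hnn : ∀ i, 0 ≤ Height.logHeight₁ (x i) := fun i => Height.zero_le_logHeight₁ _
  have ht0 : 0 ≤ t := (hnn ⟨0, hm⟩).trans (hle _)
  have hq0 : 0 ≤ ∑ i, (degree F I i : ℝ) := Finset.sum_nonneg fun i _ => Nat.cast_nonneg _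
  have hq : ∑ i, (degree F I i : ℝ) * Height.logHeight₁ (x i) ≤
      (∑ i, (degree F I i : ℝ)) * t := by
    rw [Finset.sum_mul]
    exact Finset.sum_le_sum fun i _ => mul_le_mul_of_nonneg_left (hle i) (Nat.cast_nonneg _)
  have hexp : ∑ i, ((degree F I i : ℝ) - (defect F : ℝ) / m - ε) *
      Height.logHeight₁ (x i) = ∑ i, (degree F I i : ℝ) * Height.logHeight₁ (x i) -
        (d / m + ε) * ∑ i, Height.logHeight₁ (x i) := by
    rw [Finset.mul_sum, ← Finset.sum_sub_distrib, hd]
    refine Finset.sum_congr rfl fun i _ => ?_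
    ring
  have hs0 : 0 ≤ ∑ i, Height.logHeight₁ (x i) := Finset.sum_nonneg fun i _ => hnn i
  have hde : 0 ≤ d / m + ε := by positivity
  rw [hexp]
  by_cases hcase : h0 ≤ t
  · obtain ⟨h3, h4⟩ := h2 x hxE (by rw [← ht]; exact hcase) hx
    have h5 := h1 x hx
    rw [← ht] at h3
    have h6 : (m : ℝ) * ((1 - κ) * t) ≤ ∑ i, Height.logHeight₁ (x i) := by
      have e1 : (m : ℝ) * ((1 - κ) * t) = ∑ _i : Fin m, (1 - κ) * t := by
        rw [Finset.sum_const, Finset.card_univ, Fintype.card_fin, nsmul_eq_mul]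
      rw [e1]
      refine Finset.sum_le_sum fun i _ => ?_
      rw [← hh, ht]
      exact h4 i
    have h7 := mul_le_mul_of_nonneg_left h6 hde
    have h8 : (d / m + ε) * ((m : ℝ) * ((1 - κ) * t)) = (d + ε * m) * ((1 - κ) * t) := by
      field_simp
    have h9 : (d + ε) * ((1 - κ) * t) ≤ (d + ε * m) * ((1 - κ) * t) := by
      refine mul_le_mul_of_nonneg_right ?_ (mul_nonneg (by linarith) ht0)
      nlinarith
    have h10 : (∑ i, (degree F I i : ℝ)) * t - (d + ε) * ((1 - κ) * t) =
        (wtt F I - κ) * t := by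
      rw [hsum, ← hd]
      linear_combination t * hκd
    have h11 : 0 ≤ (∑ i, (degree F I i : ℝ)) * max h0 0 :=
      mul_nonneg hq0 (le_max_right _ _)
    rw [hcount]
    linarith
  · rw [not_le] at hcase
    have h3 : t ≤ max h0 0 := hcase.le.trans (le_max_left _ _)
    have h4 := mul_le_mul_of_nonneg_left h3 hq0
    have h5 := cnt1_nonneg S I hx
    have h6 := mul_nonneg hde hs0
    rw [hcount]
    linarith

open Pool.Agent.N753.SU Pool.Agent.N753.LS Pool.Agent.H691R3 in
/-- **One exceptional set for all divisors of a product of lines.** Let `K` be a number field and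
`m ≥ 1`. There is a set `E` of points `x = (x_1, …, x_m)` over `K` with the following properties.
(1) `E` has at most `C B ^ (2 m) exp (- √ log B)` points with `H(x_i) ≤ B` for all `i`, `B ≥ 1`.
(2) For all reduced effective divisors `D` of `(P¹)^m` over `K`, all finite sets `S` of primes, all
finite families of pairs `(F'_l, G'_l)` of polynomials without common factors, all `Λ ≥ 0` and
all `ε > 0` there is a constant `C` such that
`∑ (q_i - δ(D) / m - ε) h(x_i) + Λ ∑ h_{(F'_l, G'_l)}(x) ≤ N_S^(1)(D, x) + C`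
for all `x` outside `E` and off `D`.
(3) `N_S^(1)(D, x) ≤ ∑ q_i h(x_i) + C'` for all `x` off `D`. -/
theorem result (K : Type) [Field K] [NumberField K] (m : ℕ) (hm : 0 < m) :
    ∃ E : Set (Fin m → K),
      (∃ C : ℝ, ∀ B : ℝ, 1 ≤ B →
        {x | x ∈ E ∧ ∀ i, Height.mulHeight₁ (x i) ≤ B}.Finite ∧
        ({x | x ∈ E ∧ ∀ i, Height.mulHeight₁ (x i) ≤ B}.ncard : ℝ) ≤
          C * B ^ (2 * m) * Real.exp (-√(Real.log B))) ∧
      ∀ (r : ℕ) (F : Fin r → MvPolynomial (Fin m) K) (I : Finset (Fin m))
        (S : Set (HeightOneSpectrum (𝓞 K))), (∀ j, Irreducible (F j)) →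
        (∀ j k, j ≠ k → ¬ Associated (F j) (F k)) → S.Finite →
        (∀ (t : ℕ) (F' G' : Fin t → MvPolynomial (Fin m) K), (∀ l, IsRelPrime (F' l) (G' l)) →
          ∀ Λ ε : ℝ, 0 ≤ Λ → 0 < ε → ∃ C : ℝ, ∀ x : Fin m → K, x ∉ E →
          (∀ j, MvPolynomial.eval x (F j) ≠ 0) →
          ∑ i, ((degree F I i : ℝ) - (defect F : ℝ) / m - ε) * Height.logHeight₁ (x i) +
            Λ * ∑ l, idealHeight (F' l) (G' l) x ≤ counting S F I x + C) ∧
        ∃ C : ℝ, ∀ x : Fin m → K, (∀ j, MvPolynomial.eval x (F j) ≠ 0) →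
          counting S F I x ≤ ∑ i, (degree F I i : ℝ) * Height.logHeight₁ (x i) + C := by
  classical
  obtain ⟨E1, hE1, hmain⟩ := all_div K Pool.Agent.N73.SURM.stmRM Pool.Agent.N348.SU.um
    Pool.Agent.N348.SU.zm stmLM stmOD Pool.Agent.N222.SUOM.stmOM Pool.Agent.N199.SU.stmB4 m hm
  obtain ⟨E2, hE2, hidl⟩ := all_idl K Pool.Agent.N348.SU.um Pool.Agent.N348.SU.zm
    Pool.Agent.N199.SU.stmB1 Pool.Agent.N199.SU.stmB2 Pool.Agent.N199.SU.stmB3 m hm
  refine ⟨E1 ∪ E2, ⟨4, fun B hB => ?_⟩, ?_⟩
  · have hB0 : 0 < B := by linarith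
    have hlog : 0 ≤ Real.log B := Real.log_nonneg hB
    have hset : {x : Fin m → K | x ∈ E1 ∪ E2 ∧ ∀ i, Height.mulHeight₁ (x i) ≤ B} =
        (E1 ∩ {x | htm x ≤ Real.log B}) ∪ (E2 ∩ {x | htm x ≤ Real.log B}) := by
      rw [← Set.union_inter_distrib_right]
      ext x
      simp only [Set.mem_inter_iff, Set.mem_ofPred_eq]
      refine and_congr Iff.rfl ?_
      have h1 : ∀ i, Height.mulHeight₁ (x i) ≤ B ↔ Height.logHeight₁ (x i) ≤ Real.log B := by
        intro i
        unfold Height.logHeight₁
        exact (Real.log_le_log_iff (Height.mulHeight₁_pos _) hB0).symm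
      constructor
      · intro h
        exact htm_le hm fun i => (h1 i).1 (h i)
      · intro h i
        exact (h1 i).2 ((le_htm x i).trans h)
    rw [hset]
    have hf : ∀ E : Set (Fin m → K), (E ∩ {x | htm x ≤ Real.log B}).Finite := fun E =>
      (box_fin (Real.log B)).subset Set.inter_subset_right
    refine ⟨(hf E1).union (hf E2), ?_⟩
    have h1 := Set.ncard_union_le (E1 ∩ {x | htm x ≤ Real.log B}) (E2 ∩ {x | htm x ≤ Real.log B})
    have h2 : ((E1 ∩ {x | htm x ≤ Real.log B} ∪ E2 ∩ {x | htm x ≤ Real.log B}).ncard : ℝ) ≤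
        (E1 ∩ {x | htm x ≤ Real.log B}).ncard + (E2 ∩ {x | htm x ≤ Real.log B}).ncard := by
      exact_mod_cast h1
    refine h2.trans ((add_le_add (hE1 _ hlog) (hE2 _ hlog)).trans (le_of_eq ?_))
    have h3 : Real.exp (2 * m * Real.log B - √(Real.log B)) =
        B ^ (2 * m) * Real.exp (-√(Real.log B)) := by
      rw [sub_eq_add_neg, Real.exp_add]
      congr 1
      rw [mul_comm, Real.exp_mul, Real.exp_log hB0]
      exact_mod_cast Real.rpow_natCast B (2 * m)
    rw [h3]
    ring
  · intro r F I S hF hFF hS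
    have hF0 : ∀ j, F j ≠ 0 := fun j => (hF j).ne_zero
    have hh : ∀ z : K, hr (aff z) = Height.logHeight₁ z := fun z => hr_aff z
    refine ⟨?_, ?_⟩
    · intro t F' G' hFG Λ ε hΛ hε
      obtain ⟨C1, h1⟩ := lower hm hmain F I hF hFF hS (ε := ε / 2) (by positivity)
      obtain ⟨κ, hκ⟩ : ∃ κ : ℝ, κ = ε / (2 * (Λ * t + 1)) := ⟨_, rfl⟩
      have hκ0 : 0 < κ := by rw [hκ]; positivity
      have hκΛ : Λ * (t * κ) ≤ ε / 2 := by
        have e1 : κ * (Λ * t + 1) = ε / 2 := by rw [hκ]; field_simp
        linarith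
      have h2 := fun l => hidl (F' l) (G' l) (hFG l) κ hκ0
      choose h0 h2 using h2
      obtain ⟨M, hM⟩ : ∃ M : ℝ, M = ∑ l, |h0 l| := ⟨_, rfl⟩
      have hMl : ∀ l, h0 l ≤ M := fun l => (le_abs_self _).trans (by
        rw [hM]
        exact Finset.single_le_sum (f := fun l => |h0 l|) (fun l _ => abs_nonneg _)
          (Finset.mem_univ l))
      obtain ⟨C3, hC3⟩ : ∃ C3 : ℝ, C3 = ∑ x ∈ (box_fin (K := K) (m := m) M).toFinset,
        |Λ * ∑ l, idealHeight (F' l) (G' l) x| := ⟨_, rfl⟩
      have hC30 : 0 ≤ C3 := by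
        rw [hC3]
        exact Finset.sum_nonneg fun x _ => abs_nonneg _
      refine ⟨C1 + C3, ?_⟩
      intro x hxE hx
      rw [Set.mem_union, not_or] at hxE
      have h3 := h1 x hxE.1 hx
      have hnn : ∀ i, 0 ≤ Height.logHeight₁ (x i) := fun i => Height.zero_le_logHeight₁ _
      have h4 : ∑ i, ((degree F I i : ℝ) - (defect F : ℝ) / m - ε) * Height.logHeight₁ (x i) +
          ε / 2 * ∑ i, Height.logHeight₁ (x i) =
          ∑ i, ((degree F I i : ℝ) - (defect F : ℝ) / m - ε / 2) * Height.logHeight₁ (x i) := by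
        rw [Finset.mul_sum, ← Finset.sum_add_distrib]
        refine Finset.sum_congr rfl fun i _ => ?_
        ring
      have h5 : 0 ≤ ∑ i, Height.logHeight₁ (x i) := Finset.sum_nonneg fun i _ => hnn i
      have h6 : htm x ≤ ∑ i, Height.logHeight₁ (x i) := htm_le hm fun i =>
        Finset.single_le_sum (f := fun i => Height.logHeight₁ (x i)) (fun i _ => hnn i)
          (Finset.mem_univ i)
      have h7 : 0 ≤ htm x := (hnn ⟨0, hm⟩).trans (le_htm x _)
      by_cases hcase : htm x ≤ M
      · have h8 : Λ * ∑ l, idealHeight (F' l) (G' l) x ≤ C3 := by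
          refine (le_abs_self _).trans ?_
          rw [hC3]
          exact Finset.single_le_sum (f := fun x => |Λ * ∑ l, idealHeight (F' l) (G' l) x|)
            (fun x _ => abs_nonneg _) (by
              rw [Set.Finite.mem_toFinset]
              exact hcase)
        have h9 := mul_nonneg (show 0 ≤ ε / 2 by positivity) h5
        linarith
      · rw [not_le] at hcase
        have h8 : ∑ l, idealHeight (F' l) (G' l) x ≤ t * κ * htm x := by
          have e1 : (t : ℝ) * κ * htm x = ∑ _l : Fin t, κ * htm x := by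
            rw [Finset.sum_const, Finset.card_univ, Fintype.card_fin, nsmul_eq_mul, mul_assoc]
          rw [e1]
          exact Finset.sum_le_sum fun l _ => (h2 l x hxE.2 ((hMl l).trans hcase.le)).2
        have h9 := mul_le_mul_of_nonneg_left h8 hΛ
        have h10 := mul_le_mul_of_nonneg_right hκΛ h7
        have h11 := mul_le_mul_of_nonneg_left h6 (show 0 ≤ ε / 2 by positivity)
        linarith
    · obtain ⟨C, hC⟩ := cnt1_le Pool.Agent.N348.SU.um S F hF0 I
      refine ⟨C, fun x hx => ?_⟩
      have h1 := hC x hx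
      simp only [hh] at h1
      exact h1

end Pool.Agent.Results.MP_9ec3f0_nt.ProductsOfLines
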